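import Pool.Agent.Helper743.KTHalt

set_option autoImplicit false

/-! Problem MP_95c08c_lc, question Q1, answered in the negative: there are a K-trivial set `A` and
a set `B` computable from the halting problem, relative to which the halting problem is K-trivial,
such that `A` is not computable from `B`.

The set `A` is a noncomputable computably enumerable K-trivial set, and `B` is an almost complete
set which avoids the cone above a given noncomputable c.e. set (the construction behind the
starting file S14519, problem MP_29fd35_lc). -/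

namespace Pool.Agent.Results.MP_95c08c_lc.NotBelow

open Pool.Agent.Helper743 Pool.Agent.Helper743.KT Nat.Partrec

/-- `A` is Turing reducible to `B`, for sets given by their characteristic functions. -/
def Below (A B : ℕ → Bool) : Prop :=
  TuringReducible (fun n => Part.some (A n).toNat : ℕ →. ℕ)
    (fun n => Part.some (B n).toNat : ℕ →. ℕ)

/-- All finite sums of the numbers `2 ^ (- f n)` are at most `1`. -/
def KraftSum (f : ℕ → ℕ) : Prop := ∀ s : Finset ℕ, ∑ n ∈ s, (1 / 2 : ℝ) ^ f n ≤ 1

/-- `κ` is the least function, up to an additive constant, among the functions which have the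
property `U` and satisfy the Kraft inequality. -/
def IsLeast (U : (ℕ → ℕ) → Prop) (κ : ℕ → ℕ) : Prop :=
  U κ ∧ KraftSum κ ∧ ∀ f : ℕ → ℕ, U f → KraftSum f → ∃ c : ℕ, ∀ n, κ n ≤ f n + c

/-- `f` is upper semicomputable: the set of the pairs `(n, k)` with `f n ≤ k` is computably
enumerable. -/
def UpperSemi (f : ℕ → ℕ) : Prop := REPred (fun p : ℕ × ℕ => f p.1 ≤ p.2)

/-- `f` is upper semicomputable relative to the set `B`: the set of the pairs `(n, k)` with
`f n ≤ k` is the domain of a function that is partial computable relative to `B`. -/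
def UpperSemiRel (B : ℕ → Bool) (f : ℕ → ℕ) : Prop :=
  ∃ φ : ℕ →. ℕ, TuringReducible φ (fun n => Part.some (B n).toNat : ℕ →. ℕ) ∧
    ∀ n k : ℕ, (φ (Nat.pair n k)).Dom ↔ f n ≤ k

/-- The code of the string of the first `n` bits of `X`. -/
def seg (X : ℕ → Bool) (n : ℕ) : ℕ := Encodable.encode (List.ofFn (fun i : Fin n => X i))

/-- `X` is K-trivial: `K(X ↾ n) ≤ K(n) + c` for a constant `c` and all `n`. Here `K`, prefix-free
Kolmogorov complexity, is (a version of) the least upper semicomputable function with the Kraft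
inequality. -/
def KTrivial (X : ℕ → Bool) : Prop :=
  ∃ κ : ℕ → ℕ, IsLeast UpperSemi κ ∧ ∃ c : ℕ, ∀ n : ℕ, κ (seg X n) ≤ κ n + c

/-- `X` is K-trivial relative to `B`: the same for prefix-free complexity relative to `B`. -/
def KTrivialRel (X B : ℕ → Bool) : Prop :=
  ∃ κ : ℕ → ℕ, IsLeast (UpperSemiRel B) κ ∧ ∃ c : ℕ, ∀ n : ℕ, κ (seg X n) ≤ κ n + c

/-- The halting problem. -/
noncomputable def haltingSet (n : ℕ) : Bool :=
  open Classical in decide (Code.eval (Denumerable.ofNat Code n) n).Dom

/-- `B` is almost complete: the halting problem is K-trivial relative to `B`. -/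
def AlmostComplete (B : ℕ → Bool) : Prop := KTrivialRel haltingSet B

lemma below_iff {A B : ℕ → Bool} :
    Below A B ↔ TR (fun n => (A n).toNat) (fun n => (B n).toNat) := TR_iff.symm

lemma upRel_iff {B : ℕ → Bool} {f : ℕ → ℕ} :
    UpperSemiRel B f ↔ UpS (fun n => (B n).toNat) f := by
  constructor
  · rintro ⟨φ, h1, h2⟩
    exact ⟨φ, RecursiveIn.iff_nat.1 h1, h2⟩
  · rintro ⟨φ, h1, h2⟩
    exact ⟨φ, RecursiveIn.iff_nat.2 h1, h2⟩

lemma up_iff {f : ℕ → ℕ} : UpperSemi f ↔ UpS (fun m => m) f := by
  classical
  constructor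
  · intro h
    have h1 : REPred (fun z : ℕ => f z.unpair.1 ≤ z.unpair.2) := by
      have h2 : Partrec (fun z : ℕ => Part.assert (f (z.unpair.1, z.unpair.2).1 ≤
          (z.unpair.1, z.unpair.2).2) (fun _ => Part.some ())) :=
        Partrec.comp h (Computable.pair (Computable.fst.comp Computable.unpair)
          (Computable.snd.comp Computable.unpair))
      exact h2
    obtain ⟨c, hc⟩ := re_code h1
    refine ⟨Code.eval c, ?_, fun n k => ?_⟩
    · exact (Code.exists_code.2 ⟨c, rfl⟩ : Nat.Partrec (Code.eval c)).recursiveIn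
    · have := hc (Nat.pair n k)
      rw [Nat.unpair_pair] at this
      exact this.symm
  · rintro ⟨φ, h1, h2⟩
    have h4 : Partrec φ := by
      refine Partrec.nat_iff.2 (Nat.RecursiveIn.partrec_of_oracle ?_ h1)
      intro g hg
      rw [Set.mem_singleton_iff] at hg
      subst hg
      exact Partrec.nat_iff.1 Computable.id.partrec
    have h5 : REPred (fun z : ℕ => (φ z).Dom) := h4.dom_re
    have h6 : Partrec (fun p : ℕ × ℕ => Part.assert ((φ (Nat.pair p.1 p.2)).Dom)
        (fun _ => Part.some ())) :=
      Partrec.comp h5 (Primrec₂.natPair.to_comp.comp Computable.fst Computable.snd)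
    have h7 : REPred (fun p : ℕ × ℕ => (φ (Nat.pair p.1 p.2)).Dom) := h6
    exact h7.of_eq (fun p => h2 p.1 p.2)

open Classical in
/-- Question Q1 has a negative answer: there are a K-trivial set `A` and an almost complete set
`B ≤_T 0'` such that `A` is not Turing reducible to `B`. -/
theorem result : ∃ A B : ℕ → Bool,
    KTrivial A ∧ Below B haltingSet ∧ AlmostComplete B ∧ ¬ Below A B := by
  -- the index of the c.e. set
  obtain ⟨c, hc⟩ := re_code inA_re
  set a := Encodable.encode c with ha
  have hWA : AC.WA a = chiA := by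
    funext n
    unfold AC.WA K chiA chi
    rw [Nat.unpair_pair, ha, Denumerable.ofNat_encode]
    by_cases h : inA n
    · rw [if_pos ((hc n).1 h), if_pos h]
    · rw [if_neg (fun h1 => h ((hc n).2 h1)), if_neg h]
  have hchi : (fun n => (decide (inA n)).toNat) = chiA := by
    funext n
    unfold chiA chi
    by_cases h : inA n <;> simp [h]
  have hK0 : (fun n => (haltingSet n).toNat) = K0 := by
    funext n
    unfold haltingSet K0
    by_cases h : (Code.eval (Denumerable.ofNat Code n) n).Dom <;> simp [h]
  have hav : ¬ TR chiA (fun n => (gr (AC.GG a) n).toNat) := by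
    intro h
    have h1 : ¬ Computable (AC.WA a) := by rw [hWA]; exact not_computable
    apply AC.avoids a h1
    rw [hWA]
    exact TR.trans h (gr_TR _)
  refine ⟨fun n => decide (inA n), gr (AC.GG a), ?_, ?_, ?_, ?_⟩
  · -- `A` is K-trivial
    obtain ⟨c, hc⟩ := inA_triv
    refine ⟨KG (fun m => m), ⟨up_iff.2 (KG_UpS _), KG_Kraft _, fun f hf hk =>
      KG_opt (up_iff.1 hf) hk⟩, c, fun n => ?_⟩
    have h1 : seg (fun n => decide (inA n)) n = Encodable.encode (XA n) := by
      unfold seg XA
      congr 1
      apply List.ext_getElem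
      · simp
      · intro i hi1 hi2
        rw [List.getElem_ofFn]
        simp
    rw [h1]
    exact hc n
  · rw [below_iff, hK0]
    exact TR.trans (gr_TR _) (TR.trans (AC.limC_GG a).TR_K K_TR_K0)
  · obtain ⟨c, hc⟩ := halting_triv a
    have hopt : Opt (fun n => (gr (AC.GG a) n).toNat) (KG (AC.GG a)) :=
      Opt_of_TR (TR_gr _) (gr_TR _) (Opt_KG _)
    refine ⟨KG (AC.GG a), ⟨upRel_iff.2 hopt.1, hopt.2.1, fun f hf hk =>
      hopt.2.2 f (upRel_iff.1 hf) hk⟩, c, fun n => ?_⟩
    have h1 : seg haltingSet n = Encodable.encode (AC.kstr n) := by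
      unfold seg
      rw [kstr_eq]
      rfl
    rw [h1]
    exact hc n
  · rw [below_iff, hchi]
    exact hav

end Pool.Agent.Results.MP_95c08c_lc.NotBelow
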